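import Pool.Agent.Lib.MP_668cf7_lc.Sep.Assemble

/-!
# Zero-information Arthur-Merlin communication is not bounded by a multiple of coNP

`ZAM(DISJ_n) ≥ c n ^ (1 / 68)`, whereas `coNP(DISJ_n) ≤ ⌈log₂ n⌉`.
-/

namespace Pool.Agent.Results.MP_668cf7_lc.Separation

open MP668cf7 MP668cf7.Sep Filter

/-- For set disjointness `DISJ_n` on subsets of `[n]`: `ZAM(DISJ_n) ≥ c n ^ (1 / 68)` for all large
`n`, and `coNP(DISJ_n) ≤ ⌈log₂ n⌉` for all `n`; so `ZAM(DISJ_n) / max(1, coNP(DISJ_n)) → ∞`.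
(Every `DISJ_n` has a ZAM protocol, so `ZAM(DISJ_n)` is a genuine minimum.) -/
theorem result :
    (∃ c : ℝ, 0 < c ∧ ∀ᶠ n : ℕ in atTop, c * (n : ℝ) ^ ((1 : ℝ) / 68) ≤ (ZAM (DISJ n) : ℝ)) ∧
    (∀ n : ℕ, coNP (DISJ n) ≤ Nat.clog 2 n) ∧
    (∀ n : ℕ, ∃ P : AMProtocol (Finset (Fin n)) (Finset (Fin n)), P.IsZAM (DISJ n)) ∧
    Tendsto (fun n : ℕ => (ZAM (DISJ n) : ℝ) / max 1 (coNP (DISJ n) : ℝ)) atTop atTop := by
  refine ⟨⟨1 / (2 * 10 ^ 4), by norm_num, ?_⟩, stCoNP, exists_zam,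
    ratio bound stEmbed stCoNP⟩
  filter_upwards [zam_lower bound stEmbed] with n hn
  calc 1 / (2 * 10 ^ 4) * (n : ℝ) ^ ((1 : ℝ) / 68)
      = (n : ℝ) ^ ((1 : ℝ) / 68) / (2 * 10 ^ 4) := by ring
    _ ≤ _ := hn

end Pool.Agent.Results.MP_668cf7_lc.Separation
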