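import Pool.Agent.Lib.MP_668cf7_lc.Main

/-!
# Every two-party function has subexponential zero-information Arthur-Merlin complexity
-/

namespace Pool.Agent.Results.MP_668cf7_lc.Subexponential

open MP668cf7

/-- Let `n ≥ 2`. Every two-party function `f : X → Y → Bool` on finite sets with
`min(|X|, |Y|) ≤ 2 ^ n` has a ZAM protocol, and `ZAM(f) ≤ 2 ^ (39 √(n log₂ n))`. -/
theorem result (n : ℕ) (hn : 2 ≤ n) (X Y : Type) [Finite X] [Finite Y]
    (hXY : min (Nat.card X) (Nat.card Y) ≤ 2 ^ n) (f : X → Y → Bool) :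
    (∃ P : AMProtocol X Y, P.IsZAM f) ∧
      (ZAM f : ℝ) ≤ 2 ^ (39 * Real.sqrt (n * Real.logb 2 n)) :=
  main n hn X Y hXY f

end Pool.Agent.Results.MP_668cf7_lc.Subexponential
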